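import Pool.Agent.K1H53.BI.Plan2
import Pool.Agent.K1H38.BI.Two

/-!
# Branching internal DLA, frozen dynamics: pieces ONEF and TWOF (adapted from K1H1/BI/One, K1H38/BI/Two)
-/

set_option autoImplicit false

open scoped ENNReal
open Finset

namespace Pool.Agent.K1H26.BI2

open Pool.Agent.K1H53.BI
open Pool.Agent.K1H38.BI (Ex_ofReal hasSum_one poly)

theorem keyF (hGen : S_GENF) {ν : PMF ℕ} {R : ℕ} {s : St} (hp : Act R s)
    (φ : ℕ → ℝ) (hφ : ∀ n, 0 ≤ φ n) (B : ℝ)
    (H : ∀ h : ℕ, 1 ≤ h → h ≤ VV R s → h ≤ (R + 1) ^ 2 → ∃ S : ℝ,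
      HasSum (fun k : ℕ => (ν k).toReal *
        (φ (yy s - 1 + k) * (((VV R s : ℝ) - 1) + ((k : ℝ) - 1) * ((h : ℝ) - 1)))) S ∧ S ≤ B) :
    Ex (stepF ν R s) (fun s' => ENNReal.ofReal (φ (yy s')) * (VV R s' : ℝ≥0∞)) ≤
      ENNReal.ofReal B := by
  obtain ⟨h, h4, h5, h6, -, h2⟩ := (hGen ν R s).2 hp
  refine (h2 (fun n => ENNReal.ofReal (φ n))).trans ?_
  obtain ⟨S, hS, hSB⟩ := H h h4 h5 h6
  have hnat : ∀ k : ℕ, (((VV R s - h) + k * (h - 1) : ℕ) : ℝ) =
      ((VV R s : ℝ) - 1) + ((k : ℝ) - 1) * ((h : ℝ) - 1) := by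
    intro k
    rw [Nat.cast_add, Nat.cast_sub h5, Nat.cast_mul, Nat.cast_sub h4]
    push_cast
    ring
  have hnn : ∀ k : ℕ, 0 ≤ φ (yy s - 1 + k) * (((VV R s : ℝ) - 1) + ((k : ℝ) - 1) * ((h : ℝ) - 1)) := by
    intro k
    rw [← hnat k]
    exact mul_nonneg (hφ _) (Nat.cast_nonneg _)
  calc Ex ν (fun k => ENNReal.ofReal (φ (yy s - 1 + k)) *
        (((VV R s - h) + k * (h - 1) : ℕ) : ℝ≥0∞))
      = Ex ν (fun k => ENNReal.ofReal
          (φ (yy s - 1 + k) * (((VV R s : ℝ) - 1) + ((k : ℝ) - 1) * ((h : ℝ) - 1)))) := by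
        refine Ex_congr _ fun k _ => ?_
        rw [← hnat k, ENNReal.ofReal_mul (hφ _), ENNReal.ofReal_natCast]
    _ = ENNReal.ofReal S := Ex_ofReal ν _ hnn S hS
    _ ≤ ENNReal.ofReal B := ENNReal.ofReal_le_ofReal hSB

theorem yy_pos {R : ℕ} {s : St} (hp : Act R s) : 1 ≤ yy s := by
  obtain ⟨x, hx, -⟩ := hp
  have := List.length_pos_of_mem hx
  unfold yy
  omega

theorem yy_cast {R : ℕ} {s : St} (hp : Act R s) (k : ℕ) :
    ((yy s - 1 + k : ℕ) : ℝ) = (yy s : ℝ) + ((k : ℝ) - 1) := by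
  rw [Nat.cast_add, Nat.cast_sub (yy_pos hp)]
  push_cast
  ring

theorem VV_pos (hGen : S_GENF) (ν : PMF ℕ) {R : ℕ} {s : St} (hp : Act R s) :
    1 ≤ VV R s := by
  obtain ⟨h, h4, h5, -⟩ := (hGen ν R s).2 hp
  exact h4.trans h5

/-- **Piece ONEF.** -/
theorem t_ONEF : S_ONEF := by
  intro hGen ν σ2 M R s t hO
  by_cases hp : Act R s
  · have hind : ind (Act R) s = 1 := by simp [ind, hp]
    rw [hind]
    obtain ⟨_, -, -, -, h1, -⟩ := (hGen ν R s).2 hp
    obtain ⟨μ3, hμ3, hpoly⟩ := poly hO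
    set w : ℝ := (yy s : ℝ) - t with hw
    have hcast := yy_cast hp
    have hM : 0 ≤ M := zero_le_one.trans hO.one
    refine ⟨?_, ?_, ?_⟩
    · rw [h1 (fun n => (n : ℝ≥0∞))]
      have e : ∀ k : ℕ, ((yy s - 1 + k : ℕ) : ℝ≥0∞) = ENNReal.ofReal ((yy s - 1 + k : ℕ) : ℝ) :=
        fun k => (ENNReal.ofReal_natCast _).symm
      rw [Ex_congr ν (fun k _ => e k), Ex_ofReal ν _ (fun k => Nat.cast_nonneg _) (yy s : ℝ)]
      · exact ENNReal.ofReal_natCast _
      · have := hpoly (yy s) 1 0 0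
        simp only [zero_mul, add_zero, one_mul] at this
        simpa only [hcast] using this
    · rw [h1 (fun n => ENNReal.ofReal (((n : ℝ) - t) ^ 2)),
        Ex_ofReal ν _ (fun k => sq_nonneg _) (w ^ 2 + σ2), ENNReal.ofReal_add (sq_nonneg _) hO.pos.le,
        mul_one]
      have := hpoly (w ^ 2) (2 * w) 1 0
      simp only [zero_mul, add_zero, one_mul] at this
      convert this using 2 with k
      rw [hcast, hw]
      ring
    · have h4 : HasSum (fun k : ℕ => (ν k).toReal * ((k : ℝ) - 1) ^ 4)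
          (∑' k : ℕ, (ν k).toReal * ((k : ℝ) - 1) ^ 4) := hO.sum4.hasSum
      set μ4 : ℝ := ∑' k : ℕ, (ν k).toReal * ((k : ℝ) - 1) ^ 4 with hμ4
      have hs := (hpoly (w ^ 4) (4 * w ^ 3) (6 * w ^ 2) (4 * w)).add h4
      rw [h1 (fun n => ENNReal.ofReal (((n : ℝ) - t) ^ 4)),
        Ex_ofReal ν _ (fun k => by positivity) (w ^ 4 + 6 * w ^ 2 * σ2 + 4 * w * μ3 + μ4)]
      · have hle : w ^ 4 + 6 * w ^ 2 * σ2 + 4 * w * μ3 + μ4 ≤ w ^ 4 + 10 * M * (w ^ 2 + 1) := by
          have a1 : 6 * w ^ 2 * σ2 ≤ 6 * w ^ 2 * M :=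
            mul_le_mul_of_nonneg_left hO.le (by positivity)
          have a2 : 4 * w * μ3 ≤ 2 * M * (w ^ 2 + 1) := by
            calc 4 * w * μ3 ≤ |4 * w * μ3| := le_abs_self _
              _ = 4 * |w| * |μ3| := by rw [abs_mul, abs_mul]; norm_num
              _ ≤ 4 * |w| * M := mul_le_mul_of_nonneg_left hμ3 (by positivity)
              _ ≤ 2 * M * (w ^ 2 + 1) := by
                  have : 2 * |w| ≤ w ^ 2 + 1 := by
                    nlinarith [sq_nonneg (|w| - 1), sq_abs w]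
                  nlinarith
          have a3 : μ4 ≤ M := hO.m4
          nlinarith [mul_nonneg hM (sq_nonneg w)]
        refine (ENNReal.ofReal_le_ofReal hle).trans (le_of_eq ?_)
        rw [ENNReal.ofReal_add (by positivity) (by positivity),
          ENNReal.ofReal_mul (by positivity : (0 : ℝ) ≤ 10 * M),
          ENNReal.ofReal_add (sq_nonneg _) zero_le_one, ENNReal.ofReal_one, mul_one]
      · convert hs using 2 with k
        rw [hcast, hw]
        ring
  · have hind : ind (Act R) s = 0 := by simp [ind, hp]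
    obtain ⟨s', e1, e2, -, -⟩ := (hGen ν R s).1 hp
    rw [hind, e1]
    refine ⟨?_, ?_, ?_⟩
    · rw [Ex_pure, e2]
    · rw [Ex_pure, e2]
      simp
    · rw [Ex_pure, e2]
      simp


theorem t_TWOF : S_TWOF := by
  intro hGen ν σ2 M R s t hoff
  by_cases hp : Act R s
  · have hind : ind (Act R) s = 1 := by simp [ind, hp]
    obtain ⟨μ3, hμ, hpoly⟩ := poly hoff
    have hV1 : (1 : ℝ) ≤ VV R s := by exact_mod_cast VV_pos hGen ν hp
    have hM := hoff.one
    have hσ := hoff.le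
    have hσ0 := hoff.pos
    have hy1 : (1 : ℝ) ≤ yy s := by exact_mod_cast yy_pos hp
    have hρ : (1 : ℝ) ≤ ((R : ℝ) + 1) ^ 2 := by
      have : (0 : ℝ) ≤ R := Nat.cast_nonneg _
      nlinarith
    refine ⟨?_, ?_, ?_⟩
    · have h1 := keyF hGen hp (ν := ν) (fun _ => 1) (fun _ => zero_le_one) ((VV R s : ℝ) - 1)
        (fun h h1 h2 h3 => ⟨_, by
          have := hpoly ((VV R s : ℝ) - 1) ((h : ℝ) - 1) 0 0
          convert this using 1
          funext k
          ring, by simp⟩)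
      have e1 : Ex (stepF ν R s) (fun s' => (VV R s' : ℝ≥0∞)) =
          Ex (stepF ν R s) (fun s' => ENNReal.ofReal 1 * (VV R s' : ℝ≥0∞)) := by simp
      rw [e1, hind]
      refine (add_le_add_left h1 1).trans (le_of_eq ?_)
      rw [← ENNReal.ofReal_one, ← ENNReal.ofReal_add (by linarith) zero_le_one,
        ← ENNReal.ofReal_natCast]
      congr 1
      ring
    · have h1 := keyF hGen hp (ν := ν) (fun n => (n : ℝ)) (fun n => Nat.cast_nonneg n)
        ((yy s : ℝ) * ((VV R s : ℝ) - 1) + M * ((R : ℝ) + 1) ^ 2)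
        (fun h h1 h2 h3 => ⟨_, by
          have := hpoly ((yy s : ℝ) * ((VV R s : ℝ) - 1))
            (((VV R s : ℝ) - 1) + (yy s : ℝ) * ((h : ℝ) - 1)) ((h : ℝ) - 1) 0
          convert this using 1
          funext k
          rw [yy_cast hp]
          ring, by
          have h4 : (1 : ℝ) ≤ h := by exact_mod_cast h1
          have h5 : (h : ℝ) ≤ ((R : ℝ) + 1) ^ 2 := by exact_mod_cast h3
          nlinarith [mul_le_mul hσ h5 (by linarith) (by linarith)]⟩)
      have e1 : Ex (stepF ν R s) (fun s' => (yy s' : ℝ≥0∞) * (VV R s' : ℝ≥0∞)) =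
          Ex (stepF ν R s) (fun s' => ENNReal.ofReal (yy s' : ℝ) * (VV R s' : ℝ≥0∞)) := by
        simp only [ENNReal.ofReal_natCast]
      rw [e1, hind, mul_one, mul_one]
      refine (add_le_add_left h1 _).trans (le_of_eq ?_)
      have hn1 : 0 ≤ (yy s : ℝ) * ((VV R s : ℝ) - 1) + M * ((R : ℝ) + 1) ^ 2 := by
        have : 0 ≤ (yy s : ℝ) * ((VV R s : ℝ) - 1) := mul_nonneg (by linarith) (by linarith)
        nlinarith
      rw [← ENNReal.ofReal_natCast (yy s), ← ENNReal.ofReal_natCast (VV R s),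
        ← ENNReal.ofReal_add hn1 (by linarith), ← ENNReal.ofReal_mul (by linarith),
        ← ENNReal.ofReal_add (by positivity) (by positivity)]
      congr 1
      ring
    · set w : ℝ := (yy s : ℝ) - t with hw
      have h1 := keyF hGen hp (ν := ν) (fun n => ((n : ℝ) - t) ^ 2) (fun n => sq_nonneg _)
        (w ^ 2 * (VV R s : ℝ) - w ^ 2 / 2 + M * (VV R s : ℝ) + 4 * M ^ 2 * ((R : ℝ) + 1) ^ 4)
        (fun h h1 h2 h3 => ⟨_, by
          have := hpoly (w ^ 2 * ((VV R s : ℝ) - 1))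
            (2 * w * ((VV R s : ℝ) - 1) + w ^ 2 * ((h : ℝ) - 1))
            (((VV R s : ℝ) - 1) + 2 * w * ((h : ℝ) - 1)) ((h : ℝ) - 1)
          convert this using 1
          funext k
          rw [yy_cast hp]
          have : (yy s : ℝ) + ((k : ℝ) - 1) - t = w + ((k : ℝ) - 1) := by rw [hw]; ring
          rw [this]
          ring, by
          have h4 : (1 : ℝ) ≤ h := by exact_mod_cast h1
          have h5 : (h : ℝ) ≤ ((R : ℝ) + 1) ^ 2 := by exact_mod_cast h3
          set ρ : ℝ := ((R : ℝ) + 1) ^ 2 with hρd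
          have hr : ((R : ℝ) + 1) ^ 4 = ρ ^ 2 := by rw [hρd]; ring
          rw [hr]
          have a1 : ((VV R s : ℝ) - 1) * σ2 ≤ M * (VV R s : ℝ) := by nlinarith
          have a2 : 2 * w * ((h : ℝ) - 1) * σ2 ≤ w ^ 2 / 2 + 2 * M ^ 2 * ρ ^ 2 := by
            have b1 : ((h : ℝ) - 1) * σ2 ≤ ρ * M :=
              mul_le_mul (by linarith) hσ hσ0.le (by linarith)
            have b2 : 0 ≤ ((h : ℝ) - 1) * σ2 := mul_nonneg (by linarith) hσ0.le
            have b3 : (((h : ℝ) - 1) * σ2) ^ 2 ≤ (ρ * M) ^ 2 := by gcongr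
            nlinarith [sq_nonneg (w - 2 * (((h : ℝ) - 1) * σ2))]
          have a3 : ((h : ℝ) - 1) * μ3 ≤ 2 * M ^ 2 * ρ ^ 2 := by
            have b1 : μ3 ≤ M := (le_abs_self _).trans hμ
            have b2 : ((h : ℝ) - 1) * μ3 ≤ ((h : ℝ) - 1) * M :=
              mul_le_mul_of_nonneg_left b1 (by linarith)
            have b3 : ((h : ℝ) - 1) * M ≤ ρ * M := mul_le_mul_of_nonneg_right (by linarith) (by linarith)
            have b4 : 1 ≤ ρ * M := by nlinarith
            nlinarith [mul_le_mul_of_nonneg_left b4 (by linarith : (0 : ℝ) ≤ ρ * M)]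
          nlinarith⟩)
      have e1 : Ex (stepF ν R s) (fun s' => ENNReal.ofReal (((yy s' : ℝ) - t) ^ 2) *
          (VV R s' : ℝ≥0∞)) =
          Ex (stepF ν R s) (fun s' => ENNReal.ofReal ((fun n : ℕ => ((n : ℝ) - t) ^ 2) (yy s')) *
            (VV R s' : ℝ≥0∞)) := rfl
      rw [e1, hind, mul_one, mul_one]
      refine (add_le_add_left h1 _).trans (le_of_eq ?_)
      have hn1 : 0 ≤ w ^ 2 * (VV R s : ℝ) - w ^ 2 / 2 + M * (VV R s : ℝ) +
          4 * M ^ 2 * ((R : ℝ) + 1) ^ 4 := by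
        have c1 : 0 ≤ w ^ 2 * (VV R s : ℝ) - w ^ 2 / 2 := by nlinarith [sq_nonneg w]
        have c2 : 0 ≤ M * (VV R s : ℝ) := by positivity
        have c3 : 0 ≤ 4 * M ^ 2 * ((R : ℝ) + 1) ^ 4 := by positivity
        linarith
      have hM0 : 0 ≤ M := by linarith
      rw [← ENNReal.ofReal_natCast (VV R s), ← ENNReal.ofReal_add hn1 (by positivity),
        ← ENNReal.ofReal_mul (sq_nonneg w), ← ENNReal.ofReal_mul hM0,
        ← ENNReal.ofReal_add (by positivity) (by positivity),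
        ← ENNReal.ofReal_add (by positivity) (by positivity)]
      congr 1
      ring
  · obtain ⟨s', h1, h2, h3, -⟩ := (hGen ν R s).1 hp
    have hind : ind (Act R) s = 0 := by simp [ind, hp]
    rw [hind, h1]
    simp only [Ex_pure, mul_zero, add_zero, h2, h3]
    exact ⟨le_rfl, le_rfl, le_rfl⟩

end Pool.Agent.K1H26.BI2
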